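import Pool.Agent.H238.PH.Asm
import Pool.Agent.H230.PH.A
import Pool.Agent.H124.PH.B
import Pool.Agent.H643.PH.C1
import Pool.Agent.H643.PH.C2
import Pool.Agent.H980.PH.C3
import Pool.Agent.H767.PH.D
import Pool.Agent.H92.PH.E
import Pool.Agent.H224.PH.F
import Pool.Agent.H784.PH.G
import Pool.Agent.H286.PH.H
import Pool.Agent.H264.PH.I1
import Pool.Agent.H106.PH.I2
import Pool.Agent.H51.PH.K
import Pool.Agent.H553.PH.L
import Pool.Agent.H155.PH.M
import Pool.Agent.H860.PH.N1
import Pool.Agent.H282.PH.N2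
import Pool.Agent.H719.PH.O1
import Pool.Agent.H947.PH.O2

/-!
# Homogeneous vectorial p-harmonic maps of the plane

MP_815c6c_an, Q1, for `d = 2`, all `n` and all `1 < p < ∞`, `p ≠ 2`, on positively homogeneous maps:
a `p`-harmonic map `h : ℝ² → ℝⁿ` of class `C¹` that is positively homogeneous of degree `β` has
constant gradient, or `β((p-1)β+2-p) ≥ 4`; in particular `β > 1 + 2/p`, the degree `(β-1)p/2` of
`V(∇h)` is larger than one, `V(∇h)` is `C¹` on the plane and its mean oscillation decays linearly.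
The bound on the degree is attained for every `p` as soon as `n ≥ 2`.  (In dimension `d ≥ 3` there
are homogeneous counterexamples to Q1 for `1 < p < 2`; so none exists in the plane.)

Outline.  On the unit circle write `φ(t) = h(cos t, sin t)`.  Testing the weak equation with
`χ(|x|²) Re/Im (x₁+ix₂)^k w` gives, in polar coordinates, all Fourier moments of
`(Pφ')' = -C P φ`, `P = |∇h|^(p-2)`, `C = β((p-1)β+2-p)`.  An implicit function argument and
Gronwall's inequality show that `∇h` does not vanish on the circle (unless `h = 0`) and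
`φ'' = -Cφ - κφ'` for an explicit `κ`, so that `φ` stays in a plane, identified with `ℂ`.  There the
closed curves `Z_μ = φ' + iμφ`, `μ = β` and `μ = √C`, avoid zero and have the same winding number,
which is larger than one (`μ = β`) and at most `√C` (`μ = √C`): an integer between, so `√C ≥ 2`.
-/

set_option autoImplicit false

namespace Pool.Agent.Results.MP_815c6c_an.PlanarHomogeneous

open MeasureTheory Set
open scoped ContDiff
open Pool.Agent.H238.PH

/-- Q1 for positively homogeneous `p`-harmonic maps `ℝ² → ℝⁿ` (all `n`, all `1 < p < ∞`, `p ≠ 2`),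
with the sharp lower bound for the degree. -/
theorem result {n : ℕ} {p : ℝ} (hp : 1 < p) (hp2 : p ≠ 2) :
    (∀ (β : ℝ) (h : RE 2 → RE n), IsPHarmonic p h →
      (∀ (t : ℝ) (x : RE 2), 0 < t → h (t • x) = t ^ β • h x) →
      ((∀ x, grad h x = grad h 0) ∨ (4 ≤ β * ((p - 1) * β + 2 - p) ∧ 1 + 2 / p < β)) ∧
      ContDiff ℝ 1 (fun x => Vop p (grad h x)) ∧
      ∃ c : ℝ, ∀ (x : RE 2) (r θ : ℝ), 0 < r → 0 < θ → θ ≤ 1 →
        osc (fun y => Vop p (grad h y)) (Metric.ball x (θ * r))
          ≤ c * θ * osc (fun y => Vop p (grad h y)) (Metric.ball x r)) ∧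
    (2 ≤ n → ∃ (β : ℝ) (h : RE 2 → RE n), 1 < β ∧ β * ((p - 1) * β + 2 - p) = 4 ∧
      IsPHarmonic p h ∧ (∀ (t : ℝ) (x : RE 2), 0 < t → h (t • x) = t ^ β • h x) ∧
      ¬ (∀ x, grad h x = grad h 0)) := by
  have hA := Pool.Agent.H230.PH.A.t_A
  have hB := Pool.Agent.H124.PH.t_B
  have hC := Pool.Agent.H980.PH.t_C3 hA hB Pool.Agent.H643.PHC1.t_C1 Pool.Agent.H643.PHC2.t_C2
  have hI2 := Pool.Agent.H106.PH.t_I2 Pool.Agent.H286.PH.t_H Pool.Agent.H264.PH.t_I1
  have hJ := t_J hA hB hC Pool.Agent.H767.PH.t_D Pool.Agent.H92.PH.t_E Pool.Agent.H224.PH.t_F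
    Pool.Agent.H784.PH.t_G hI2
  exact main hA hB hJ Pool.Agent.H51.PH.t_K Pool.Agent.H553.PH.L.t_L Pool.Agent.H155.PH.t_M
    Pool.Agent.H860.PH.t_N1 Pool.Agent.H282.PH.t_N2
    (Pool.Agent.H947.PH.O2.t_O2 Pool.Agent.H719.PH.t_O1) hp hp2

end Pool.Agent.Results.MP_815c6c_an.PlanarHomogeneous
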